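import Pool.Agent.helper7.AL.Spec

/-! Project AL (MP_bf63dc_nt), row BLC: two primes in four clusters of forms. -/

set_option autoImplicit false

namespace Pool.Agent.AL

open Finset Pool.Agent.helper85.FC Pool.Agent.helper11.MK

/-- row BLC -/
theorem BLC (h : CM4_stmt) : BLC_stmt := by
  classical
  obtain ⟨k, hk, hmain⟩ := h
  refine ⟨k, hk, ?_⟩
  intro S hS hdis hpos hprop hadm
  set F : Fin (4 * k) → ℕ × ℤ := fun t =>
    (((S (cl4 t)).equivFinOfCardEq (hS (cl4 t))).symm (finProdFinEquiv.symm t).2).1 with hF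
  have hmem : ∀ t, F t ∈ S (cl4 t) := fun t =>
    (((S (cl4 t)).equivFinOfCardEq (hS (cl4 t))).symm (finProdFinEquiv.symm t).2).2
  have hinj : Function.Injective F := by
    intro i j hij
    have h1 : cl4 i = cl4 j := by
      by_contra hne
      have h2 := Finset.disjoint_left.1 (hdis _ _ hne) (hmem i)
      apply h2
      rw [hij]
      exact hmem j
    have h2 : ∀ b : Fin 4, ∀ x y : Fin k, (((S b).equivFinOfCardEq (hS b)).symm x).1 =
        (((S b).equivFinOfCardEq (hS b)).symm y).1 → x = y := by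
      intro b x y hxy
      exact ((S b).equivFinOfCardEq (hS b)).symm.injective (Subtype.ext hxy)
    have h3 : (finProdFinEquiv.symm i).2 = (finProdFinEquiv.symm j).2 := by
      apply h2 (cl4 j)
      simp only [hF] at hij
      rw [h1] at hij
      exact hij
    apply finProdFinEquiv.symm.injective
    exact Prod.ext h1 h3
  have hN := hmain (fun i => (F i).1) (fun i => (F i).2) (fun i => hpos _ _ (hmem i)) (by
    intro i j hij
    exact hprop _ _ _ (hmem i) _ (hmem j) fun h => hij (hinj h)) (by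
    intro p hp
    obtain ⟨n, hn⟩ := hadm p hp
    exact ⟨n, fun i => hn _ _ (hmem i)⟩)
  by_contra hcon
  push Not at hcon
  set T : Fin (4 * k) × Fin (4 * k) → Set ℕ := fun ij => {n : ℕ | cl4 ij.1 ≠ cl4 ij.2 ∧
    (((F ij.1).1 : ℤ) * n + (F ij.1).2).toNat.Prime ∧
    (((F ij.2).1 : ℤ) * n + (F ij.2).2).toNat.Prime} with hT
  have hTfin : ∀ ij, (T ij).Finite := by
    rintro ⟨i, j⟩
    by_cases hij : cl4 i = cl4 j
    · have : T (i, j) = ∅ := by
        ext n
        simp [hT, hij]
      rw [this]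
      exact Set.finite_empty
    · by_contra hinf
      refine hcon (cl4 i) (cl4 j) hij (F i) (hmem i) (F j) (hmem j) ?_
      unfold Both
      refine Set.Infinite.mono ?_ hinf
      rintro n ⟨_, h1, h2⟩
      exact ⟨h1, h2⟩
  have hunion : (⋃ ij, T ij).Finite := Set.finite_iUnion hTfin
  obtain ⟨M, hM⟩ := hunion.bddAbove
  obtain ⟨n, hn, i, j, hij, h1, h2⟩ := hN (M + 1)
  have h3 : n ∈ ⋃ ij, T ij := Set.mem_iUnion.2 ⟨(i, j), hij, h1, h2⟩
  have h4 := hM h3
  omega

end Pool.Agent.AL
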